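import Pool.Agent.W606.PS.Stm

/-!
Project PS (planar product structure), part C2A: hub and legs.
-/

set_option autoImplicit false

open Set Relation

namespace Pool.Agent.W790.PSP

open Pool.Agent.W606.PS

section
variable {V : Type} {G : SimpleGraph V}

theorem connected_of_con (h : Con G univ) : G.Connected := by
  obtain ⟨⟨u, -⟩, h2⟩ := h
  have : Nonempty V := ⟨u⟩
  refine SimpleGraph.Connected.mk ?_
  intro a b
  have := h2 a (mem_univ a) b (mem_univ b)
  induction this with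
  | refl => exact SimpleGraph.Reachable.refl a
  | tail _ h ih => exact ih.trans h.1.reachable

theorem exists_closer (hT : G.Connected) {r x : V} (h : x ≠ r) :
    ∃ y, G.Adj x y ∧ G.dist r y + 1 = G.dist r x := by
  obtain ⟨p, hp⟩ := hT.exists_walk_length_eq_dist x r
  cases p with
  | nil => exact absurd rfl h
  | @cons _ y _ h1 q =>
    refine ⟨y, h1, ?_⟩
    have h2 : G.dist y r ≤ q.length := SimpleGraph.dist_le q
    have h3 := hT.dist_triangle (u := r) (v := y) (w := x)
    have h4 : G.dist y x = 1 := SimpleGraph.dist_eq_one_iff_adj.2 h1.symm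
    rw [SimpleGraph.Walk.length_cons] at hp
    rw [SimpleGraph.dist_comm (u := y)] at h2
    rw [SimpleGraph.dist_comm (u := x)] at hp
    omega

theorem dist_adj (hT : G.Connected) (s : V) {u v : V} (h : G.Adj u v) :
    G.dist s v ≤ G.dist s u + 1 := by
  have h3 := hT.dist_triangle (u := s) (v := u) (w := v)
  have h4 : G.dist u v = 1 := SimpleGraph.dist_eq_one_iff_adj.2 h
  omega

theorem ncard_six [Fintype V] (S : Set V) (A B : Fin 3 → Set V) (hA : ∀ i, (A i).Subsingleton)
    (hB : ∀ i, (B i).Subsingleton) (h : ∀ v ∈ S, ∃ i, v ∈ A i ∨ v ∈ B i) : S.ncard ≤ 6 := by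
  classical
  have h1 : S ⊆ (A 0 ∪ A 1 ∪ A 2) ∪ (B 0 ∪ B 1 ∪ B 2) := by
    intro v hv
    obtain ⟨i, hi⟩ := h v hv
    fin_cases i <;> simp only [mem_union] <;> rcases hi with hi | hi <;> tauto
  have h2 := ncard_le_ncard h1 (toFinite _)
  have h3 : ∀ i, (A i).ncard ≤ 1 := fun i => ncard_le_one_iff_subsingleton.2 (hA i)
  have h4 : ∀ i, (B i).ncard ≤ 1 := fun i => ncard_le_one_iff_subsingleton.2 (hB i)
  have h5 := ncard_union_le (A 0 ∪ A 1 ∪ A 2) (B 0 ∪ B 1 ∪ B 2)
  have h6 := ncard_union_le (A 0 ∪ A 1) (A 2)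
  have h7 := ncard_union_le (A 0) (A 1)
  have h8 := ncard_union_le (B 0 ∪ B 1) (B 2)
  have h9 := ncard_union_le (B 0) (B 1)
  have := h3 0; have := h3 1; have := h3 2
  have := h4 0; have := h4 1; have := h4 2
  omega

variable {M : ℤ} {Om : Set V} {Z : Fin 3 → Set V} {f : V → ℤ} {col : V → Fin 3}
  {leg : V → Set V}

theorem mem_leg (hL : Lg G M Om Z f col leg) {u : V} (hu : u ∈ Om) : u ∈ leg u := by
  obtain ⟨w, -, -, -, h⟩ := hL.step u hu
  rw [h]
  exact mem_insert _ _

theorem f_nonneg (hL : Lg G M Om Z f col leg) {u : V} (hu : u ∈ Om) : 0 ≤ f u :=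
  (hL.le u u (mem_leg hL hu)).1

theorem f_le_walk (hL : Lg G M Om Z f col leg) {v z : V} (p : G.Walk v z) (hv : v ∈ Om)
    (hz : z ∉ Om) : f v ≤ M + p.length := by
  induction p with
  | nil => exact absurd hv hz
  | @cons u w y h q ih =>
    have h1 := hL.lip u hv w h
    rw [abs_le] at h1
    rw [SimpleGraph.Walk.length_cons]
    push_cast
    by_cases hw : w ∈ Om
    · have := ih hw hz
      omega
    · have := (hL.rng w ⟨hw, u, hv, h⟩).2
      omega

theorem f_le_dist (hT : G.Connected) (hL : Lg G M Om Z f col leg) {v z : V} (hv : v ∈ Om)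
    (hz : z ∉ Om) : f v ≤ M + G.dist v z := by
  obtain ⟨p, hp⟩ := hT.exists_walk_length_eq_dist v z
  have := f_le_walk hL p hv hz
  rw [hp] at this
  exact this

/-- following the parents one leaves a subset of the region with the colour kept -/
theorem leave (hL : Lg G M Om Z f col leg) {A : Set V} (hA : A ⊆ Om) :
    ∀ n : ℕ, ∀ u ∈ A, f u ≤ n → ∃ y ∈ Nb G A, col y = col u := by
  intro n
  induction n with
  | zero =>
    intro u hu hn
    obtain ⟨w, h1, h2, h3, -⟩ := hL.step u (hA hu)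
    by_cases hw : w ∈ A
    · have h4 := f_nonneg hL (hA hw)
      push_cast at hn
      omega
    · exact ⟨w, ⟨hw, u, hu, h1⟩, h3⟩
  | succ n ih =>
    intro u hu hn
    obtain ⟨w, h1, h2, h3, -⟩ := hL.step u (hA hu)
    by_cases hw : w ∈ A
    · obtain ⟨y, hy, hy'⟩ := ih w hw (by push_cast at hn; omega)
      exact ⟨y, hy, hy'.trans h3⟩
    · exact ⟨w, ⟨hw, u, hu, h1⟩, h3⟩

/-- crossing from the region where `g < f` -/
theorem crossing (hL : Lg G M Om Z f col leg) {g : V → ℤ}
    (hg : ∀ v, v ∉ Om → M < g v) :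
    ∀ n : ℕ, ∀ u ∈ Om, f u ≤ n → g u < f u → ∃ q p, q ∈ Om ∧ g q < f q ∧ G.Adj q p ∧
      col p = col u ∧ f p = f q - 1 ∧ f p ≤ g p ∧ f q ≤ f u := by
  intro n
  induction n with
  | zero =>
    intro u hu hn hgu
    obtain ⟨w, h1, h2, h3, -⟩ := hL.step u hu
    by_cases hw : f w ≤ g w
    · exact ⟨u, w, hu, hgu, h1, h3, h2, hw, le_rfl⟩
    · push Not at hw
      have hwO : w ∈ Om := by
        by_contra hwO
        have h4 := (hL.rng w ⟨hwO, u, hu, h1⟩).2
        have h5 := hg w hwO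
        omega
      have h4 := f_nonneg hL hwO
      push_cast at hn
      omega
  | succ n ih =>
    intro u hu hn hgu
    obtain ⟨w, h1, h2, h3, -⟩ := hL.step u hu
    by_cases hw : f w ≤ g w
    · exact ⟨u, w, hu, hgu, h1, h3, h2, hw, le_rfl⟩
    · push Not at hw
      have hwO : w ∈ Om := by
        by_contra hwO
        have h4 := (hL.rng w ⟨hwO, u, hu, h1⟩).2
        have h5 := hg w hwO
        omega
      obtain ⟨q, p, a1, a2, a3, a4, a5, a6, a7⟩ := ih w hwO (by push_cast at hn; omega) hw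
      exact ⟨q, p, a1, a2, a3, a4.trans h3, a5, a6, by omega⟩

/-- the vertices of a leg of an `f`-type vertex are of `f`-type -/
theorem ftype (hL : Lg G M Om Z f col leg) {g : V → ℤ}
    (hgl : ∀ u v, G.Adj u v → g v ≤ g u + 1) :
    ∀ n : ℕ, ∀ p ∈ Om, f p ≤ n → f p ≤ g p → ∀ v ∈ leg p, f v ≤ g v := by
  intro n
  induction n with
  | zero =>
    intro p hp hn hgp v hv
    obtain ⟨w, h1, h2, h3, h4⟩ := hL.step p hp
    rw [h4] at hv
    rcases hv with rfl | hv
    · exact hgp
    · by_cases hwO : w ∈ Om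
      · have h5 := f_nonneg hL hwO
        push_cast at hn
        omega
      · rw [hL.out w hwO] at hv
        exact absurd hv (notMem_empty v)
  | succ n ih =>
    intro p hp hn hgp v hv
    obtain ⟨w, h1, h2, h3, h4⟩ := hL.step p hp
    rw [h4] at hv
    rcases hv with rfl | hv
    · exact hgp
    · by_cases hwO : w ∈ Om
      · have h5 := hgl w p h1.symm
        exact ih w hwO (by push_cast at hn; omega) (by omega) v hv
      · rw [hL.out w hwO] at hv
        exact absurd hv (notMem_empty v)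

/-- the hub -/
theorem hub (hT : G.Connected) (hL : Lg G M Om Z f col leg) (s : V)
    (hg : ∀ v, v ∉ Om → M < G.dist s v) :
    ∀ n : ℕ, ∀ v ∈ Om, G.dist s v = n → (G.dist s v : ℤ) < f v →
      ∃ R : Set V, v ∈ R ∧ s ∈ R ∧ R ⊆ Om ∧ Con G R ∧
        (∀ w ∈ R, (G.dist s w : ℤ) < f w ∧ G.dist s w ≤ G.dist s v) ∧
        ∀ w ∈ R, ∀ w' ∈ R, G.dist s w = G.dist s w' → w = w' := by
  intro n
  induction n with
  | zero =>
    intro v hv hn hgv
    have h1 : s = v := (hT.dist_eq_zero_iff).1 hn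
    subst h1
    refine ⟨{s}, rfl, rfl, ?_, con_singleton G s, ?_, ?_⟩
    · intro w hw
      rw [mem_singleton_iff] at hw
      rw [hw]; exact hv
    · intro w hw
      rw [mem_singleton_iff] at hw
      rw [hw]; exact ⟨hgv, le_rfl⟩
    · intro w hw w' hw' _
      rw [mem_singleton_iff] at hw hw'
      rw [hw, hw']
  | succ n ih =>
    intro v hv hn hgv
    have hne : v ≠ s := by
      rintro rfl
      rw [SimpleGraph.dist_self] at hn
      omega
    obtain ⟨v', h1, h2⟩ := exists_closer hT hne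
    have h3 := hL.lip v hv v' h1
    rw [abs_le] at h3
    have h4 : (G.dist s v' : ℤ) < f v' := by omega
    have hv' : v' ∈ Om := by
      by_contra hv'
      have h5 := (hL.rng v' ⟨hv', v, hv, h1⟩).2
      have h6 := hg v' hv'
      omega
    obtain ⟨R, a1, a2, a3, a4, a5, a6⟩ := ih v' hv' (by omega) h4
    refine ⟨R ∪ {v}, Or.inr rfl, Or.inl a2, ?_, ?_, ?_, ?_⟩
    · rintro w (hw | hw)
      · exact a3 hw
      · rw [mem_singleton_iff] at hw
        rw [hw]; exact hv
    · exact a4.union_tch (con_singleton G v) ⟨v', a1, v, rfl, h1.symm⟩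
    · rintro w (hw | hw)
      · have := a5 w hw
        exact ⟨this.1, by omega⟩
      · rw [mem_singleton_iff] at hw
        rw [hw]; exact ⟨hgv, le_rfl⟩
    · rintro w (hw | hw) w' (hw' | hw') hww
      · exact a6 w hw w' hw' hww
      · rw [mem_singleton_iff] at hw'
        rw [hw'] at hww
        have := (a5 w hw).2
        omega
      · rw [mem_singleton_iff] at hw
        rw [hw] at hww
        have := (a5 w' hw').2
        omega
      · rw [mem_singleton_iff] at hw hw'
        rw [hw, hw']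

end

theorem main : S_C2A := by
  intro V _ G hG k hk hSep Om Z hOc hcov f col leg hL x hcol hadj i₀ hi₀ hf₀
  have hT := connected_of_con hG
  -- (a)
  obtain ⟨A, hxA, hAO, hQ1, hQ2⟩ := hSep Om (x i₀) hOc (by
    intro z hz
    have := f_le_dist hT hL hi₀ hz
    omega)
  -- (b)
  have hy : ∀ i, ∃ y ∈ Nb G A, col y = i := by
    intro i
    by_cases hxi : x i ∈ A
    · obtain ⟨y, hy, hy'⟩ := leave hL hAO (f (x i)).toNat (x i) hxi (Int.self_le_toNat _)
      exact ⟨y, hy, hy'.trans (hcol i)⟩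
    · have hne : i₀ ≠ i := by
        rintro rfl
        exact hxi hxA
      exact ⟨x i, ⟨hxi, x i₀, hxA, hadj i₀ i hne⟩, hcol i⟩
  choose y hyQ hyc using hy
  -- (c)
  have hc : ∀ v ∈ Nb G A, v ∈ Om ∧ (2 * k + 1 : ℤ) ≤ f v ∧ f v ≤ 9 * k + 1 := by
    intro v hv
    obtain ⟨h1, h2, z, hz, hz'⟩ := hQ1 v hv
    refine ⟨h1, ?_, ?_⟩
    · obtain ⟨z', hz1, hz2⟩ := hL.far v h1
      have := h2 z' hz1
      omega
    · have := f_le_dist hT hL h1 hz
      omega
  -- (d)
  set s := y 0 with hs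
  have hgO : ∀ v, v ∉ Om → (2 * k : ℤ) < G.dist s v := by
    intro v hv
    have := (hQ1 s (hyQ 0)).2.1 v hv
    omega
  have hgl : ∀ u v, G.Adj u v → (G.dist s v : ℤ) ≤ G.dist s u + 1 := by
    intro u v huv
    have := dist_adj hT s huv
    omega
  have hgy : ∀ i, (G.dist s (y i) : ℤ) < f (y i) := by
    intro i
    have h1 := hQ2 s (hyQ 0) (y i) (hyQ i)
    have h2 := (hc (y i) (hyQ i)).2.1
    omega
  -- (e)
  have hcross : ∀ i, ∃ q p, q ∈ Om ∧ (G.dist s q : ℤ) < f q ∧ G.Adj q p ∧ col p = i ∧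
      f p = f q - 1 ∧ f p ≤ G.dist s p ∧ f q ≤ f (y i) := by
    intro i
    obtain ⟨q, p, a1, a2, a3, a4, a5, a6, a7⟩ :=
      crossing hL (g := fun v => (G.dist s v : ℤ)) hgO (f (y i)).toNat (y i) (hc _ (hyQ i)).1
        (Int.self_le_toNat _) (hgy i)
    exact ⟨q, p, a1, a2, a3, a4.trans (hyc i), a5, a6, a7⟩
  choose q p hqO hqg hqp hpc hpf hpg hqf using hcross
  -- (f)
  have hhub : ∀ i, ∃ R : Set V, q i ∈ R ∧ s ∈ R ∧ R ⊆ Om ∧ Con G R ∧
        (∀ w ∈ R, (G.dist s w : ℤ) < f w ∧ G.dist s w ≤ G.dist s (q i)) ∧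
        ∀ w ∈ R, ∀ w' ∈ R, G.dist s w = G.dist s w' → w = w' :=
    fun i => hub hT hL s hgO _ (q i) (hqO i) rfl (hqg i)
  choose R hR1 hR2 hR3 hR4 hR5 hR6 using hhub
  have hft : ∀ i, ∀ v ∈ leg (p i), f v ≤ G.dist s v := by
    intro i v hv
    by_cases hpO : p i ∈ Om
    · exact ftype hL (g := fun v => (G.dist s v : ℤ)) hgl (f (p i)).toNat (p i) hpO
        (Int.self_le_toNat _) (hpg i) v hv
    · rw [hL.out _ hpO] at hv
      exact absurd hv (notMem_empty v)
  have hR : ∀ v, v ∈ ⋃ i, R i → (G.dist s v : ℤ) < f v := by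
    intro v hv
    obtain ⟨i, hi⟩ := mem_iUnion.1 hv
    exact (hR5 i v hi).1
  refine ⟨fun v => min (f v) (G.dist s v), ⋃ i, R i, fun i => leg (p i), ?_, ?_, ?_, ?_, ?_, ?_,
    ?_, ?_, ?_, ?_, ?_⟩
  · intro v hv
    have h1 := (hL.rng v hv).2
    have h2 := hgO v hv.1
    exact min_eq_left (by omega)
  · intro u hu v huv
    have h1 := hL.lip u hu v huv
    have h2 := hgl u v huv
    have h3 := hgl v u huv.symm
    rw [abs_le] at h1 ⊢
    rcases le_total (f u) (G.dist s u) with h4 | h4 <;>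
      rcases le_total (f v) (G.dist s v) with h5 | h5 <;>
      simp only [min_eq_left h4, min_eq_left h5, min_eq_right h4, min_eq_right h5] <;>
      constructor <;> omega
  · exact iUnion_subset hR3
  · refine con_of_cover (S₀ := R 0) (hR4 0) (subset_iUnion R 0) ?_
    intro v hv
    obtain ⟨i, hi⟩ := mem_iUnion.1 hv
    exact ⟨R i, hi, subset_iUnion R i, hR4 i, ⟨s, hR2 i, hR2 0⟩⟩
  · exact fun i => hL.sub (p i)
  · intro i j hij
    rw [Set.disjoint_left]
    intro v hv hv'
    apply hij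
    rw [← hpc i, ← hpc j, ← hL.colL _ v hv, ← hL.colL _ v hv']
  · intro i
    have := hL.con (p i)
    rw [hpc i] at this
    exact this
  · intro i
    rw [Set.disjoint_left]
    intro v hv hv'
    have h1 := hR v hv
    have h2 := hft i v hv'
    omega
  · intro i
    by_cases hpO : p i ∈ Om
    · right
      exact ⟨hL.conL _ hpO, q i, mem_iUnion.2 ⟨i, hR1 i⟩, p i, mem_leg hL hpO, hqp i⟩
    · left
      refine ⟨hL.out _ hpO, q i, mem_iUnion.2 ⟨i, hR1 i⟩, p i, ?_, hqp i⟩
      have h1 : p i ∈ ⋃ j, Z j := by rw [hcov]; exact hpO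
      obtain ⟨j, hj⟩ := mem_iUnion.1 h1
      have h2 := hL.colZ j _ hj
      rw [hpc i] at h2
      subst h2
      exact hj
  · rintro v (hv | hv)
    · have h0 := hR v hv
      obtain ⟨i, hi⟩ := mem_iUnion.1 hv
      have h1 := (hR5 i v hi).2
      have h2 := hqg i
      have h3 := hqf i
      have h4 := (hc _ (hyQ i)).2.2
      simp only [min_eq_right h0.le]
      constructor
      · positivity
      · omega
    · obtain ⟨i, hi⟩ := mem_iUnion.1 hv
      have h0 := hft i v hi
      have h1 := hL.le (p i) v hi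
      have h2 := hpf i
      have h3 := hqf i
      have h4 := (hc _ (hyQ i)).2.2
      simp only [min_eq_left h0]
      constructor <;> omega
  · intro a
    refine ncard_six _ (fun i => {v | v ∈ R i ∧ (G.dist s v : ℤ) = a})
      (fun i => {v | v ∈ leg (p i) ∧ f v = a}) ?_ ?_ ?_
    · rintro i v ⟨h1, h2⟩ w ⟨h3, h4⟩
      exact hR6 i v h1 w h3 (by omega)
    · rintro i v ⟨h1, h2⟩ w ⟨h3, h4⟩
      exact hL.inj _ v h1 w h3 (by omega)
    · rintro v ⟨hv | hv, ha⟩
      · have h0 := hR v hv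
        obtain ⟨i, hi⟩ := mem_iUnion.1 hv
        simp only [min_eq_right h0.le] at ha
        exact ⟨i, Or.inl ⟨hi, ha⟩⟩
      · obtain ⟨i, hi⟩ := mem_iUnion.1 hv
        have h0 := hft i v hi
        simp only [min_eq_left h0] at ha
        exact ⟨i, Or.inr ⟨hi, ha⟩⟩

end Pool.Agent.W790.PSP
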